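import Pool.Agent.Helper6.SQ.TRA

/-!
# Packet SQ-IOTA (MP_bb32d1_al): the `sl` relations in `u_q(gl)`
-/

namespace Pool.Agent.Helper6.SQ

open Pool.Agent.Helper19.SQ

noncomputable section

variable {N l : ℕ} {q : ℂ}

theorem kinv_scalar {B : Type*} [Ring B] [Algebra ℂ B] {k k' x : B} {c : ℂ} (hc : c ≠ 0)
    (h1 : k' * k = 1) (h2 : k * k' = 1) (h : k * x = c • (x * k)) :
    k' * x = c⁻¹ • (x * k') := by
  have e1 : x * k = c⁻¹ • (k * x) := by rw [h, smul_smul, inv_mul_cancel₀ hc, one_smul]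
  calc k' * x = k' * (x * k) * k' := by
        rw [mul_assoc k' (x * k) k', mul_assoc x k k', h2, mul_one]
    _ = c⁻¹ • (k' * k * x * k') := by
        rw [e1, mul_smul_comm, smul_mul_assoc, ← mul_assoc]
    _ = _ := by rw [h1, one_mul]

theorem cart_eq (i j : Fin N) : cart i j = pr (i : ℕ) j - pr ((i : ℕ) + 1) j := by
  unfold cart pr
  by_cases h1 : i = j
  · subst h1
    rw [if_pos rfl, if_pos rfl, if_neg (by omega), if_pos rfl]
    norm_num
  · have h1' : (i : ℕ) ≠ j := fun h => h1 (Fin.ext h)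
    rw [if_neg h1, if_neg h1']
    by_cases h2 : (i : ℕ) + 1 = j
    · rw [if_pos (Or.inl h2), if_neg (by omega), if_pos h2]
      norm_num
    · by_cases h3 : (j : ℕ) + 1 = i
      · rw [if_pos (Or.inr h3), if_pos (by omega), if_neg h2, if_neg (by omega)]
        norm_num
      · rw [if_neg (by rintro (h | h) <;> omega), if_neg (by omega), if_neg h2,
          if_neg (by omega)]
        norm_num

theorem ext0_gE : ext0 (fun i : Fin N => gE N l q i) = gE N l q := by
  funext k
  unfold ext0
  split_ifs with h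
  · rfl
  · exact ((glA N l q).E_out k (by omega)).symm

theorem ext0_gF : ext0 (fun i : Fin N => gF N l q i) = gF N l q := by
  funext k
  unfold ext0
  split_ifs with h
  · rfl
  · exact ((glA N l q).F_out k (by omega)).symm

theorem s_iota : S_IOTA := by
  intro N l q hp
  have hl : l ≠ 0 := by have := hp.h3; omega
  have hq : q ≠ 0 := hp.prim.ne_zero hl
  have hK := glA N l q
  have hKE : ∀ i j : Fin N, gK N l q i * gK N l q ((i : ℕ) + 1) ^ (l - 1) * gE N l q j =
      q ^ cart i j • (gE N l q j * (gK N l q i * gK N l q ((i : ℕ) + 1) ^ (l - 1))) := by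
    intro i j
    have h1 := kinv_scalar (zpow_ne_zero _ hq) (K_inv_mul hl ((i : ℕ) + 1))
      (K_mul_inv hl ((i : ℕ) + 1)) (hK.KE ((i : ℕ) + 1) (j : ℕ))
    rw [mul_assoc, h1, mul_smul_comm, ← mul_assoc, hK.KE, smul_mul_assoc, smul_smul, mul_assoc,
      cart_eq, zpow_sub₀ hq]
    congr 1
    rw [div_eq_mul_inv]
    ring
  have hKF : ∀ i j : Fin N, gK N l q i * gK N l q ((i : ℕ) + 1) ^ (l - 1) * gF N l q j =
      q ^ (-cart i j) • (gF N l q j * (gK N l q i * gK N l q ((i : ℕ) + 1) ^ (l - 1))) := by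
    intro i j
    have h1 := kinv_scalar (zpow_ne_zero _ hq) (K_inv_mul hl ((i : ℕ) + 1))
      (K_mul_inv hl ((i : ℕ) + 1)) (hK.KF ((i : ℕ) + 1) (j : ℕ))
    rw [mul_assoc, h1, mul_smul_comm, ← mul_assoc, hK.KF, smul_mul_assoc, smul_smul, mul_assoc,
      cart_eq, neg_sub, ← zpow_neg, neg_neg, ← zpow_add₀ hq]
    congr 2
  refine ⟨?_, ?_, hKE, hKF, ?_, ?_, ?_, ?_, ?_, ?_, ?_, ?_⟩
  · intro i j
    exact ((kk_commute_K (N := N) (l := l) (q := q) i ((i : ℕ) + 1) (j : ℕ)).mul_right
      ((kk_commute_K (N := N) (l := l) (q := q) i ((i : ℕ) + 1) ((j : ℕ) + 1)).pow_right _)).eq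
  · intro i
    have h1 : Commute (gK N l q i) (gK N l q ((i : ℕ) + 1) ^ (l - 1)) := (K_commute _ _).pow_right _
    rw [h1.mul_pow, hK.K_pow, ← pow_mul, mul_comm (l - 1) l, pow_mul, hK.K_pow, one_pow, one_mul]
  · intro i
    have h1 := kk_inv (N := N) (q := q) (l := l) (by have := hp.h3; omega) (i : ℕ) ((i : ℕ) + 1)
    unfold kk at h1
    rw [h1, hK.EF i i.2, ((K_commute (N := N) (l := l) (q := q) (i : ℕ)
      ((i : ℕ) + 1)).pow_left (l - 1)).eq]
  · intro i j hij
    exact hK.EF_ne i j fun h => hij (Fin.ext h)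
  · intro i j hij
    unfold cart at hij
    split_ifs at hij with h1 h2
    · omega
    have h1' : (i : ℕ) ≠ j := fun h => h1 (Fin.ext h)
    rcases Nat.lt_or_gt_of_ne h1' with h | h
    · exact hK.sE.far i j (by omega)
    · exact (hK.sE.far j i (by omega)).symm
  · intro i j hij
    unfold cart at hij
    split_ifs at hij with h1 h2
    rcases h2 with h | h
    · have := hK.sE.s1 i
      rw [h] at this
      exact this
    · have := hK.sE.s2 j
      rw [h] at this
      exact this
  · intro i j hij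
    unfold cart at hij
    split_ifs at hij with h1 h2
    · omega
    have h1' : (i : ℕ) ≠ j := fun h => h1 (Fin.ext h)
    rcases Nat.lt_or_gt_of_ne h1' with h | h
    · exact hK.sF.far i j (by omega)
    · exact (hK.sF.far j i (by omega)).symm
  · intro i j hij
    unfold cart at hij
    split_ifs at hij with h1 h2
    rcases h2 with h | h
    · have := hK.sF.s1 i
      rw [h] at this
      exact this
    · have := hK.sF.s2 j
      rw [h] at this
      exact this
  · intro i j _ _
    rw [ext0_gE]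
    exact hK.pE _ _
  · intro i j _ _
    rw [ext0_gF]
    exact hK.pF _ _

end

end Pool.Agent.Helper6.SQ
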