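import Pool.Agent.Helper16.SQ.HC
import Pool.Agent.Helper95.SQ.TRI
import Pool.Agent.Helper19.SQ.GoalsS

/-!
# Packet SQ-STT (MP_bb32d1_al): homogeneous traces vanish on the Steinberg block
-/

namespace Pool.Agent.Helper6.SQ

open Pool.Agent.Helper19.SQ Pool.Agent.Helper16.SQ

noncomputable section

variable {N l : ℕ} {q : ℂ}

/-! ### the weight idempotent -/

/-- the sum `∑ X^r`. -/
def sX (N l : ℕ) (q : ℂ) (c : ℂ) (j : ℕ) : A N l q :=
  ∑ r ∈ Finset.range l, (c⁻¹ • gK N l q j) ^ r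

/-- one factor of the weight idempotent. -/
def pj (N l : ℕ) (q : ℂ) (c : ℂ) (j : ℕ) : A N l q := (l : ℂ)⁻¹ • sX N l q c j

theorem sX_X {c : ℂ} (hc : c ^ l = 1) (j : ℕ) :
    (c⁻¹ • gK N l q j) * sX N l q c j = sX N l q c j := by
  unfold sX
  set X := c⁻¹ • gK N l q j with hX
  have hXl : X ^ l = 1 := by
    rw [hX, smul_pow, inv_pow, hc, (glA N l q).K_pow, inv_one, one_smul]
  have h1 : ∑ r ∈ Finset.range (l + 1), X ^ r = X * (∑ r ∈ Finset.range l, X ^ r) + 1 := by
    rw [Finset.sum_range_succ', pow_zero, Finset.mul_sum]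
    congr 1
    exact Finset.sum_congr rfl fun r _ => pow_succ' X r
  rw [Finset.sum_range_succ, hXl] at h1
  exact (add_right_cancel h1).symm

theorem pj_K {c : ℂ} (hc0 : c ≠ 0) (hc : c ^ l = 1) (j : ℕ) :
    gK N l q j * pj N l q c j = c • pj N l q c j := by
  have h2 := sX_X (N := N) (q := q) hc j
  rw [smul_mul_assoc] at h2
  have h3 : gK N l q j * sX N l q c j = c • sX N l q c j := by
    conv_rhs => rw [← h2]
    rw [smul_smul, mul_inv_cancel₀ hc0, one_smul]
  unfold pj
  rw [mul_smul_comm, h3, smul_comm]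

theorem pj_E (hq : q ≠ 0) (c : ℂ) (j k : ℕ) :
    ∃ x : A N l q, gE N l q k * pj N l q c j = x * gE N l q k := by
  have h1 : gE N l q k * gK N l q j = (q ^ pr j k)⁻¹ • (gK N l q j * gE N l q k) := by
    rw [(glA N l q).KE, smul_smul, inv_mul_cancel₀ (zpow_ne_zero _ hq), one_smul]
  have h2 : ∀ r : ℕ, gE N l q k * (c⁻¹ • gK N l q j) ^ r =
      ((q ^ pr j k)⁻¹ • (c⁻¹ • gK N l q j)) ^ r * gE N l q k := by
    intro r
    induction r with
    | zero => rw [pow_zero, pow_zero, mul_one, one_mul]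
    | succ r ih =>
      rw [pow_succ, ← mul_assoc, ih, mul_assoc, mul_smul_comm, h1, pow_succ]
      simp only [mul_smul_comm, smul_mul_assoc, mul_assoc]
      rw [smul_comm c⁻¹]
  refine ⟨(l : ℂ)⁻¹ • ∑ r ∈ Finset.range l, ((q ^ pr j k)⁻¹ • (c⁻¹ • gK N l q j)) ^ r, ?_⟩
  unfold pj sX
  rw [mul_smul_comm, Finset.mul_sum, smul_mul_assoc, Finset.sum_mul]
  congr 1
  exact Finset.sum_congr rfl fun r _ => h2 r

theorem pj_comm (c : ℂ) (i j : ℕ) : Commute (gK N l q i) (pj N l q c j) := by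
  unfold pj sX
  refine Commute.smul_right (Commute.sum_right _ _ _ fun r _ => Commute.pow_right ?_ _) _
  exact Commute.smul_right ((glA N l q).K_comm i j) _

theorem pj_tor (hl : l ≠ 0) (s : ℕ → ℂˣ) (c : ℂ) (j : ℕ) :
    tor N l q hl s (pj N l q c j) = pj N l q c j := by
  unfold pj sX
  rw [map_smul, map_sum]
  congr 1
  refine Finset.sum_congr rfl fun r _ => ?_
  rw [map_pow, map_smul, tor_K]

section Mod

variable {M : Type} [AddCommGroup M] [Module ℂ M] [Module (A N l q) M]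
  [IsScalarTower ℂ (A N l q) M]

theorem pj_smul (hl : l ≠ 0) {c : ℂ} (hc0 : c ≠ 0) (j : ℕ) (v : M)
    (hv : gK N l q j • v = c • v) : pj N l q c j • v = v := by
  have h1 : ∀ r : ℕ, (c⁻¹ • gK N l q j) ^ r • v = v := by
    intro r
    induction r with
    | zero => rw [pow_zero, one_smul]
    | succ r ih =>
      rw [pow_succ, mul_smul, smul_assoc, hv, smul_smul, inv_mul_cancel₀ hc0, one_smul, ih]
  unfold pj sX
  rw [smul_assoc, Finset.sum_smul, Finset.sum_congr rfl fun r _ => h1 r, Finset.sum_const,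
    Finset.card_range, ← Nat.cast_smul_eq_nsmul ℂ, smul_smul,
    inv_mul_cancel₀ (Nat.cast_ne_zero.2 hl), one_smul]

end Mod

/-- the product of the first `m` factors. -/
def pm (N l : ℕ) (q : ℂ) (cc : ℕ → ℂ) (m : ℕ) : A N l q :=
  ((List.range m).map fun j => pj N l q (cc j) j).prod

theorem pm_zero (cc : ℕ → ℂ) : pm N l q cc 0 = 1 := by simp [pm]

theorem pm_succ (cc : ℕ → ℂ) (m : ℕ) :
    pm N l q cc (m + 1) = pm N l q cc m * pj N l q (cc m) m := by
  unfold pm
  rw [List.range_succ, List.map_append, List.prod_append]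
  simp

theorem pm_comm (cc : ℕ → ℂ) (i m : ℕ) : Commute (gK N l q i) (pm N l q cc m) := by
  induction m with
  | zero => rw [pm_zero]; exact Commute.one_right _
  | succ m ih => rw [pm_succ]; exact ih.mul_right (pj_comm _ _ _)

theorem pm_K (cc : ℕ → ℂ) (hc0 : ∀ j, cc j ≠ 0) (hc : ∀ j, cc j ^ l = 1) (m i : ℕ) (hi : i < m) :
    gK N l q i * pm N l q cc m = cc i • pm N l q cc m := by
  induction m with
  | zero => omega
  | succ m ih =>
    rw [pm_succ]
    rcases Nat.lt_succ_iff_lt_or_eq.1 hi with h | h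
    · rw [← mul_assoc, ih h, smul_mul_assoc]
    · subst h
      rw [← mul_assoc, (pm_comm cc i i).eq, mul_assoc, pj_K (hc0 i) (hc i), mul_smul_comm]

theorem pm_E (hq : q ≠ 0) (cc : ℕ → ℂ) (k m : ℕ) :
    ∃ x : A N l q, gE N l q k * pm N l q cc m = x * gE N l q k := by
  induction m with
  | zero => exact ⟨1, by rw [pm_zero, mul_one, one_mul]⟩
  | succ m ih =>
    obtain ⟨x, hx⟩ := ih
    obtain ⟨x', hx'⟩ := pj_E (N := N) (l := l) hq (cc m) m k
    exact ⟨x * x', by rw [pm_succ, ← mul_assoc, hx, mul_assoc, hx', mul_assoc]⟩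

theorem pm_tor (hl : l ≠ 0) (s : ℕ → ℂˣ) (cc : ℕ → ℂ) (m : ℕ) :
    tor N l q hl s (pm N l q cc m) = pm N l q cc m := by
  induction m with
  | zero => rw [pm_zero, map_one]
  | succ m ih => rw [pm_succ, map_mul, ih, pj_tor]

theorem pm_smul {M : Type} [AddCommGroup M] [Module ℂ M] [Module (A N l q) M]
    [IsScalarTower ℂ (A N l q) M] (hl : l ≠ 0) (cc : ℕ → ℂ) (hc0 : ∀ j, cc j ≠ 0) (m : ℕ)
    (v : M) (hv : ∀ j < m, gK N l q j • v = cc j • v) : pm N l q cc m • v = v := by
  induction m with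
  | zero => rw [pm_zero, one_smul]
  | succ m ih =>
    rw [pm_succ, mul_smul, pj_smul hl (hc0 m) m v (hv m (Nat.lt_succ_self m)),
      ih fun j hj => hv j (by omega)]

/-! ### words acting on a singular vector -/

/-- the span of the words of length `n - 1` in the `F` applied to `y`. -/
def UU (y : A N l q) (n : ℕ) : Submodule ℂ (A N l q) :=
  Submodule.span ℂ {x | ∃ w : List ℕ, w.length + 1 = n ∧ x = (w.map (gF N l q)).prod * y}

theorem UU_zero (y : A N l q) : UU y 0 = ⊥ := by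
  unfold UU
  rw [Submodule.span_eq_bot]
  rintro x ⟨w, hw, -⟩
  omega

theorem UU_word (y : A N l q) (w : List ℕ) :
    (w.map (gF N l q)).prod * y ∈ UU y (w.length + 1) := Submodule.subset_span ⟨w, rfl, rfl⟩

theorem UU_F (y : A N l q) (k n : ℕ) (u : A N l q) (hu : u ∈ UU y n) :
    gF N l q k * u ∈ UU y (n + 1) := by
  refine Submodule.span_induction ?_ ?_ ?_ ?_ hu
  · rintro x ⟨w, hw, rfl⟩
    refine Submodule.subset_span ⟨k :: w, by rw [List.length_cons, hw], ?_⟩
    rw [List.map_cons, List.prod_cons, mul_assoc]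
  · rw [mul_zero]; exact zero_mem _
  · intro x z _ _ hx hz
    rw [mul_add]; exact add_mem hx hz
  · intro c x _ hx
    rw [mul_smul_comm]; exact Submodule.smul_mem _ _ hx

theorem UU_K (y : A N l q) (hy : ∀ j, ∃ c : ℂ, gK N l q j * y = c • y) (j n : ℕ) (u : A N l q)
    (hu : u ∈ UU y n) : gK N l q j * u ∈ UU y n := by
  refine Submodule.span_induction ?_ ?_ ?_ ?_ hu
  · rintro x ⟨w, hw, rfl⟩
    obtain ⟨c, hc⟩ := Pool.Agent.Helper95.SQ.K_wdF (glA N l q) j w
    obtain ⟨c', hc'⟩ := hy j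
    unfold Pool.Agent.Helper95.SQ.wd at hc
    rw [← mul_assoc, hc, smul_mul_assoc, mul_assoc, hc', mul_smul_comm]
    exact Submodule.smul_mem _ _ (Submodule.smul_mem _ _ (Submodule.subset_span ⟨w, hw, rfl⟩))
  · rw [mul_zero]; exact zero_mem _
  · intro x z _ _ hx hz
    rw [mul_add]; exact add_mem hx hz
  · intro c x _ hx
    rw [mul_smul_comm]; exact Submodule.smul_mem _ _ hx

theorem UU_Kpow (y : A N l q) (hy : ∀ j, ∃ c : ℂ, gK N l q j * y = c • y) (j n m : ℕ)
    (u : A N l q) (hu : u ∈ UU y n) : gK N l q j ^ m * u ∈ UU y n := by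
  induction m with
  | zero => rw [pow_zero, one_mul]; exact hu
  | succ m ih => rw [pow_succ', mul_assoc]; exact UU_K y hy j n _ ih

theorem UU_E_word (y : A N l q) (hy : ∀ j, ∃ c : ℂ, gK N l q j * y = c • y)
    (hE : ∀ k, gE N l q k * y = 0) (k : ℕ) (w : List ℕ) :
    gE N l q k * ((w.map (gF N l q)).prod * y) ∈ UU y w.length := by
  induction w with
  | nil => simp [hE, UU_zero]
  | cons i w ih =>
    rw [List.map_cons, List.prod_cons, List.length_cons]
    set u := (w.map (gF N l q)).prod * y with hu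
    have hu1 : u ∈ UU y (w.length + 1) := UU_word y w
    have e1 : gE N l q k * (gF N l q i * (w.map (gF N l q)).prod * y) =
        gF N l q i * (gE N l q k * u) +
          (gE N l q k * gF N l q i - gF N l q i * gE N l q k) * u := by
      rw [hu]; noncomm_ring
    rw [e1]
    refine add_mem (UU_F y i _ _ ih) ?_
    by_cases hki : k = i
    · subst hki
      by_cases hk : k < N
      · rw [(glA N l q).EF k hk, smul_mul_assoc, sub_mul, mul_assoc, mul_assoc]
        refine Submodule.smul_mem _ _ (sub_mem ?_ ?_)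
        · exact UU_K y hy _ _ _ (UU_Kpow y hy _ _ _ _ hu1)
        · exact UU_Kpow y hy _ _ _ _ (UU_K y hy _ _ _ hu1)
      · rw [(glA N l q).E_out k (not_lt.1 hk), zero_mul, mul_zero, sub_zero, zero_mul]
        exact zero_mem _
    · rw [(glA N l q).EF_ne k i hki, sub_self, zero_mul]
      exact zero_mem _

theorem UU_E (y : A N l q) (hy : ∀ j, ∃ c : ℂ, gK N l q j * y = c • y)
    (hE : ∀ k, gE N l q k * y = 0) (k n : ℕ) (u : A N l q) (hu : u ∈ UU y n) :
    gE N l q k * u ∈ UU y (n - 1) := by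
  refine Submodule.span_induction ?_ ?_ ?_ ?_ hu
  · rintro x ⟨w, hw, rfl⟩
    have h := UU_E_word y hy hE k w
    rwa [show w.length = n - 1 by omega] at h
  · rw [mul_zero]; exact zero_mem _
  · intro x z _ _ hx hz
    rw [mul_add]; exact add_mem hx hz
  · intro c x _ hx
    rw [mul_smul_comm]; exact Submodule.smul_mem _ _ hx

theorem UU_Ew (y : A N l q) (hy : ∀ j, ∃ c : ℂ, gK N l q j * y = c • y)
    (hE : ∀ k, gE N l q k * y = 0) (v : List ℕ) (n : ℕ) (u : A N l q) (hu : u ∈ UU y n) :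
    (v.map (gE N l q)).prod * u ∈ UU y (n - v.length) := by
  induction v with
  | nil => simpa using hu
  | cons k v ih =>
    rw [List.map_cons, List.prod_cons, List.length_cons, mul_assoc]
    have h := UU_E y hy hE k _ _ ih
    rwa [show n - v.length - 1 = n - (v.length + 1) by omega] at h

theorem monF_UU (hMONW : S_MONW) (y : A N l q) (a : ℕ → ℕ → ℕ)
    (ha : ∀ i j, ¬ (i < j ∧ j ≤ N) → a i j = 0) :
    mon N q (gF N l q) a * y ∈ UU y (ht N a + 1) := by
  have h := hMONW (A N l q) N q (gF N l q) a ha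
  refine Submodule.span_induction (p := fun z _ => z * y ∈ UU y (ht N a + 1)) ?_ ?_ ?_ ?_ h
  · rintro x ⟨w, hw, -, rfl⟩
    exact Submodule.subset_span ⟨w, by rw [hw], rfl⟩
  · rw [zero_mul]; exact zero_mem _
  · intro x z _ _ hx hz
    rw [add_mul]; exact add_mem hx hz
  · intro c x _ hx
    rw [smul_mul_assoc]; exact Submodule.smul_mem _ _ hx

theorem monE_kill (hMONW : S_MONW) (y : A N l q) (hy : ∀ j, ∃ c : ℂ, gK N l q j * y = c • y)
    (hE : ∀ k, gE N l q k * y = 0) (b : ℕ → ℕ → ℕ)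
    (hb : ∀ i j, ¬ (i < j ∧ j ≤ N) → b i j = 0) (n : ℕ) (hn : n ≤ ht N b) (u : A N l q)
    (hu : u ∈ UU y n) : mon N q (gE N l q) b * u = 0 := by
  have h := hMONW (A N l q) N q (gE N l q) b hb
  refine Submodule.span_induction (p := fun z _ => z * u = 0) ?_ ?_ ?_ ?_ h
  · rintro x ⟨w, hw, -, rfl⟩
    have h1 := UU_Ew y hy hE w n u hu
    rw [hw, Nat.sub_eq_zero_of_le hn, UU_zero, Submodule.mem_bot] at h1
    exact h1
  · rw [zero_mul]
  · intro x z _ _ hx hz
    rw [add_mul, hx, hz, add_zero]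
  · intro c x _ hx
    rw [smul_mul_assoc, hx, smul_zero]

theorem isEx_top (hl : 0 < l) : IsEx N l (topE N l) := by
  intro i j
  unfold topE
  constructor
  · intro h; rw [if_pos h]; omega
  · intro h; rw [if_neg h]

theorem par_facts (hP : Par N l q) : 0 < l ∧ q ≠ 0 ∧ q ^ 2 ≠ 1 ∧ q ^ 2 ≠ -1 := by
  have hl : 0 < l := by have := hP.h3; omega
  have hq0 : q ≠ 0 := hP.prim.ne_zero (by omega)
  have hq2 : q ^ 2 ≠ 1 := by
    intro h
    have := hP.prim.dvd_of_pow_eq_one 2 h
    have := Nat.le_of_dvd (by norm_num) this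
    have := hP.h3
    omega
  have hqm : q ^ 2 ≠ -1 := by
    intro h
    have h4 : q ^ 4 = 1 := by
      have : q ^ 4 = (q ^ 2) ^ 2 := by ring
      rw [this, h]; norm_num
    have h5 := hP.prim.dvd_of_pow_eq_one 4 h4
    have h6 := Nat.le_of_dvd (by norm_num) h5
    have h7 := hP.h3
    have h8 := hP.odd
    interval_cases l
    · omega
    · exact absurd h8 (by decide)
  exact ⟨hl, hq0, hq2, hqm⟩

theorem E_top (hSPAN : S_SPAN) (hMONW : S_MONW) (hHTOP : S_HTOP) (hP : Par N l q) (k : ℕ) :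
    gE N l q k * mon N q (gE N l q) (topE N l) = 0 := by
  obtain ⟨hl, hq0, hq2, hqm⟩ := par_facts hP
  have hA := glA N l q
  have h := hMONW (A N l q) N q (gE N l q) (topE N l) fun i j h => ((isEx_top hl) i j).2 h
  refine Submodule.span_induction (p := fun z _ => gE N l q k * z = 0) ?_ ?_ ?_ ?_ h
  · rintro x ⟨w, hw, -, rfl⟩
    have h1 := hSPAN (A N l q) N l q (gE N l q) hl hq0 hq2 hqm hA.sE hA.E_out hA.pE (k :: w)
    rw [List.map_cons, List.prod_cons] at h1
    have h2 : {x | ∃ b, IsEx N l b ∧ ht N b = (k :: w).length ∧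
            x = mon N q (gE N l q) b} = ∅ := by
      ext x
      simp only [Set.mem_ofPred_eq, Set.mem_empty_iff_false, iff_false]
      rintro ⟨b, hb, hht, -⟩
      have h3 := (hHTOP N l b hb).1
      rw [hht, List.length_cons, hw] at h3
      omega
    rw [h2, Submodule.span_empty, Submodule.mem_bot] at h1
    exact h1
  · rw [mul_zero]
  · intro x z _ _ hx hz
    rw [mul_add, hx, hz, add_zero]
  · intro c x _ hx
    rw [mul_smul_comm, hx, smul_zero]

/-- `E^top A y` is in `ℂ y`. -/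
theorem top_A (hTRI : S_TRI) (hMONW : S_MONW) (hHTOP : S_HTOP) (hP : Par N l q) (y : A N l q)
    (lam : Fin (N + 1) → ZMod l) (hs : Sing q lam y) (γ : ℂ)
    (hγ : mon N q (gE N l q) (topE N l) * (mon N q (gF N l q) (topE N l) * y) = γ • y)
    (x : A N l q) : ∃ c : ℂ, mon N q (gE N l q) (topE N l) * (x * y) = c • y := by
  obtain ⟨hl, hq0, hq2, hqm⟩ := par_facts hP
  have hE : ∀ k, gE N l q k * y = 0 := hs.1
  have hy : ∀ j, ∃ c : ℂ, gK N l q j * y = c • y := by
    intro j
    by_cases hj : j < N + 1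
    · exact ⟨_, hs.2 ⟨j, hj⟩⟩
    · exact ⟨1, by rw [(glA N l q).K_out j (by omega), one_mul, one_smul]⟩
  have h := hTRI N l q hP x
  refine Submodule.span_induction
    (p := fun z _ => ∃ c : ℂ, mon N q (gE N l q) (topE N l) * (z * y) = c • y) ?_ ?_ ?_ ?_ h
  · rintro x ⟨a, b, κ, -, rfl⟩
    have e1 : ∃ c : ℂ, mon N q (gE N l q) b.1 * y = c • y := by
      by_cases hb : ht N b.1 = 0
      · exact ⟨1, by rw [hc_mon_one (N := N) _ _ (hc_ht_zero b.1 hb), one_mul, one_smul]⟩
      · refine ⟨0, ?_⟩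
        rw [zero_smul]
        refine monE_kill hMONW y hy hE b.1 (fun i j h => (b.2 i j).2 h) 1 (by omega) y ?_
        exact Submodule.subset_span ⟨[], rfl, by simp⟩
    have e2 : ∃ c : ℂ, kmon N (gK N l q) κ * y = c • y := by
      refine ⟨((List.range (N + 1)).map fun j => qz q (hclam lam j) ^ κ j).prod, ?_⟩
      exact hc_Klist_smul hs κ (List.range (N + 1)) fun j hj => List.mem_range.1 hj
    obtain ⟨c1, e1⟩ := e1
    obtain ⟨c2, e2⟩ := e2
    rw [mul_assoc, mul_assoc, e1, mul_smul_comm, e2, smul_smul, mul_smul_comm, mul_smul_comm]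
    by_cases ha : a.1 = topE N l
    · rw [ha, hγ, smul_smul]
      exact ⟨_, rfl⟩
    · refine ⟨0, ?_⟩
      have h1 := hHTOP N l a.1 a.2
      have h2 : ht N a.1 < ht N (topE N l) := lt_of_le_of_ne h1.1 fun h => ha (h1.2 h)
      rw [monE_kill hMONW y hy hE (topE N l) (fun i j h => ((isEx_top hl) i j).2 h)
        (ht N a.1 + 1) (by omega) _ (monF_UU hMONW y a.1 fun i j h => (a.2 i j).2 h),
        smul_zero, zero_smul]
  · exact ⟨0, by rw [zero_mul, mul_zero, zero_smul]⟩
  · rintro x z _ _ ⟨c, hx⟩ ⟨d, hz⟩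
    exact ⟨c + d, by rw [add_mul, mul_add, hx, hz, add_smul]⟩
  · rintro c x _ ⟨d, hx⟩
    exact ⟨c * d, by rw [smul_mul_assoc, mul_smul_comm, hx, smul_smul]⟩

theorem s_stt (hGAM : S_GAM) (hTRI : S_TRI) (hSPAN : S_SPAN) (hMONW : S_MONW)
    (hHTOP : S_HTOP) (hSV : S_SV) (hFDIM : S_FDIM) : S_STT := by
  intro N l _ q hl0 hP s c e hec hee heS ζ τ hζ htr hτs hτe
  obtain ⟨hl, hq0, hq2, hqm⟩ := par_facts hP
  obtain ⟨γ, hγ0, hγ⟩ := hGAM N l q hP c
  set ET := mon N q (gE N l q) (topE N l) with hET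
  set FT := mon N q (gF N l q) (topE N l) with hFT
  set cc : ℕ → ℂ := fun j => qz q (c + (j : ZMod l)) with hcc
  have hcc0 : ∀ j, cc j ≠ 0 := fun j => pow_ne_zero _ hq0
  have hccl : ∀ j, cc j ^ l = 1 := by
    intro j
    change (q ^ _) ^ l = 1
    rw [← pow_mul, mul_comm, pow_mul, hP.prim.pow_eq_one, one_pow]
  set P := pm N l q cc (N + 1) with hPdef
  set y := P * ET with hy
  have hyE : ∀ k, gE N l q k * y = 0 := by
    intro k
    obtain ⟨x, hx⟩ := pm_E (N := N) (l := l) hq0 cc k (N + 1)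
    rw [hy, ← mul_assoc, hx, mul_assoc, hET, E_top hSPAN hMONW hHTOP hP, mul_zero]
  have hyK : ∀ j < N + 1, gK N l q j * y = cc j • y := by
    intro j hj
    rw [hy, ← mul_assoc, pm_K cc hcc0 hccl (N + 1) j hj, smul_mul_assoc]
  have hyS : Sing q (fun j : Fin (N + 1) => c + ((j : ℕ) : ZMod l)) y :=
    ⟨hyE, fun j => hyK j j.2⟩
  have hyP : P * y = y := by
    exact pm_smul (N := N) (q := q) (M := A N l q) hl0 cc hcc0 (N + 1) y (fun j hj => hyK j hj)
  have hyγ : ET * (FT * y) = γ • y := hγ (A N l q) y hyS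
  have htop := top_A hTRI hMONW hHTOP hP y _ hyS γ hyγ
  set f := γ⁻¹ • (FT * y) with hf
  have hfxf : ∀ x, ∃ d : ℂ, f * x * f = d • f := by
    intro x
    obtain ⟨d, hd⟩ := htop (x * FT)
    refine ⟨γ⁻¹ * d, ?_⟩
    have e1 : FT * (P * ET) * x * (FT * y) = FT * (P * (ET * (x * FT * y))) := by
      simp only [mul_assoc]
    rw [hf, smul_mul_assoc, smul_mul_assoc, mul_smul_comm]
    conv_lhs => rw [show FT * y * x * (FT * y) = FT * (P * ET) * x * (FT * y) from rfl]
    rw [e1, hd, mul_smul_comm, hyP, mul_smul_comm]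
    simp only [smul_smul]
    congr 1
    ring
  have hff : f * f = f := by
    have e1 : FT * (P * ET) * (FT * y) = FT * (P * (ET * (FT * y))) := by
      simp only [mul_assoc]
    rw [hf, smul_mul_assoc, mul_smul_comm]
    conv_lhs => rw [show FT * y * (FT * y) = FT * (P * ET) * (FT * y) from rfl]
    rw [e1, hyγ, mul_smul_comm, hyP, mul_smul_comm, smul_smul, smul_smul]
    congr 1
    field_simp
  have hftor : tor N l q hl0 s f = f := by
    rw [hf, hy, map_smul, map_mul, map_mul, hFT, hET, hc_tor_monE, hc_tor_monF, hPdef, pm_tor,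
      mul_smul_comm, smul_mul_assoc, mul_smul_comm, smul_smul (tw N s _), ← hc_tw_add,
      neg_add_cancel, hc_tw_zero, one_smul]
  have hτf : τ f = 0 := by
    have h1 := hτs f
    rw [hftor] at h1
    have h2 : (1 - ζ) * τ f = 0 := by rw [sub_mul, one_mul, ← h1, sub_self]
    rcases mul_eq_zero.1 h2 with h3 | h3
    · exact absurd (sub_eq_zero.1 h3).symm hζ
    · exact h3
  have hτxfz : ∀ x z, τ (x * (f * z)) = 0 := by
    intro x z
    obtain ⟨d, hd⟩ := hfxf (z * x)
    have e1 : x * (f * z) = (x * f) * (f * z) := by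
      rw [mul_assoc x f, ← mul_assoc f f, hff]
    have e2 : f * z * (x * f) = f * (z * x) * f := by simp only [mul_assoc]
    rw [e1, htr, e2, hd, map_smul, hτf, smul_zero]
  -- the radical of the trace form
  let J : Submodule (A N l q) (A N l q) :=
    { carrier := {z | ∀ x, τ (x * z) = 0}
      zero_mem' := fun x => by rw [mul_zero, map_zero]
      add_mem' := fun {a b} ha hb x => by rw [mul_add, map_add, ha, hb, add_zero]
      smul_mem' := fun a z hz x => by rw [smul_eq_mul, ← mul_assoc]; exact hz _ }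
  have hJ : ∀ z, z ∈ J ↔ ∀ x, τ (x * z) = 0 := fun z => Iff.rfl
  by_contra hτ
  have h1J : (1 : A N l q) ∉ J := by
    intro h
    apply hτ
    ext x
    have := (hJ 1).1 h x
    rw [mul_one] at this
    rw [this]; rfl
  have := hFDIM N l q hP
  have : FiniteDimensional ℂ (A N l q ⧸ J) :=
    Module.Finite.of_surjective (J.mkQ.restrictScalars ℂ) (Submodule.mkQ_surjective J)
  obtain ⟨lam, v, hv0, hv⟩ := hSV N l q hP (A N l q ⧸ J)
    ⟨Submodule.Quotient.mk 1, fun h => h1J ((Submodule.Quotient.mk_eq_zero J).1 h)⟩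
  have hev : e • v = v := by
    obtain ⟨z, rfl⟩ := Submodule.Quotient.mk_surjective J v
    rw [← Submodule.Quotient.mk_smul, Submodule.Quotient.eq, hJ]
    intro x
    rw [smul_eq_mul, hec, mul_sub, ← mul_assoc, map_sub, hτe, sub_self]
  have hfv : ∀ w : A N l q ⧸ J, f • w = 0 := by
    intro w
    obtain ⟨z, rfl⟩ := Submodule.Quotient.mk_surjective J w
    rw [← Submodule.Quotient.mk_smul, Submodule.Quotient.mk_eq_zero, hJ]
    intro x
    exact hτxfz x z
  have h3 := heS (A N l q ⧸ J) lam v hv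
  by_cases hlam : ∀ j : Fin (N + 1), lam j = c + ((j : ℕ) : ZMod l)
  · have hlam' : lam = fun j : Fin (N + 1) => c + ((j : ℕ) : ZMod l) := funext hlam
    subst hlam'
    have h4 : ET • FT • v = γ • v := hγ (A N l q ⧸ J) v hv
    have h5 : P • v = v := pm_smul hl0 cc hcc0 (N + 1) v fun j hj => hv.2 ⟨j, hj⟩
    have h6 := hfv (FT • v)
    rw [hf, smul_assoc, mul_smul, hy, mul_smul, h4, hc_smul_comm, h5, hc_smul_comm, smul_smul,
      inv_mul_cancel₀ hγ0, one_smul] at h6
    rw [h6, smul_zero] at h4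
    rcases smul_eq_zero.1 h4.symm with h7 | h7
    · exact hγ0 h7
    · exact hv0 h7
  · have h4 := h3.2 hlam
    rw [hev] at h4
    exact hv0 h4

end

end Pool.Agent.Helper6.SQ
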