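import Pool.Agent.Helper19.SQ.GoalsS

/-!
# Packet SQ-TF (MP_bb32d1_al): the symmetric form
-/

namespace Pool.Agent.Helper6.SQ

open Pool.Agent.Helper19.SQ

noncomputable section

theorem s_tf (h0 : S_TF0) (hK : S_TFK) (hE : S_TFE) (hF : S_TFF) (hN : S_TFN) (hD : S_TFD) :
    S_TF := by
  intro N l _ q hl D hP
  obtain ⟨t, ht⟩ := h0 N l q D hP
  have htr : ∀ x y, t (x * y) = t (y * x) := by
    intro x
    refine A_induction (P := fun x => ∀ y, t (x * y) = t (y * x)) ?_ ?_ ?_ ?_ ?_ ?_ x
    · intro c y; rw [Algebra.commutes]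
    · intro i y; exact hE N l q hP t ht i y
    · intro i y; exact hF N l q hP t ht i y
    · intro i y; exact hK N l q hP t ht i y
    · intro a b ha hb y; rw [add_mul, mul_add, map_add, map_add, ha, hb]
    · intro a b ha hb y; rw [mul_assoc, ha, mul_assoc, hb, mul_assoc]
  exact ⟨t, htr, hN N l q D hP t ht htr, fun s x => hD N l q hl hP t ht s x⟩

end

end Pool.Agent.Helper6.SQ
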