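import Pool.Agent.Helper19.SQ.GoalsS

/-!
# Packet SQ-TRA (MP_bb32d1_al): the transfer from `gl` to `sl`
-/

namespace Pool.Agent.Helper6.SQ

open Pool.Agent.Helper19.SQ

noncomputable section

variable {N l : ℕ} {q : ℂ}

/-- the product `K_0 ... K_{m-1}`. -/
def pK (N l : ℕ) (q : ℂ) (m : ℕ) : A N l q := ((List.range m).map (gK N l q)).prod

theorem pK_succ (m : ℕ) : pK N l q (m + 1) = pK N l q m * gK N l q m := by
  unfold pK
  rw [List.range_succ, List.map_append, List.prod_append]
  simp

theorem pK_zero : pK N l q 0 = 1 := by simp [pK]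

theorem pK_E (hq : q ≠ 0) (k m : ℕ) : pK N l q m * gE N l q k =
    q ^ (∑ j ∈ Finset.range m, pr j k) • (gE N l q k * pK N l q m) := by
  induction m with
  | zero => simp [pK_zero]
  | succ m ih =>
    rw [pK_succ, Finset.sum_range_succ, zpow_add₀ hq, mul_assoc, (glA N l q).KE, mul_smul_comm,
      ← mul_assoc, ih, smul_mul_assoc, smul_smul, mul_assoc, mul_comm (q ^ pr m k)]

theorem pK_F (hq : q ≠ 0) (k m : ℕ) : pK N l q m * gF N l q k =
    q ^ (-∑ j ∈ Finset.range m, pr j k) • (gF N l q k * pK N l q m) := by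
  induction m with
  | zero => simp [pK_zero]
  | succ m ih =>
    rw [pK_succ, Finset.sum_range_succ, neg_add, zpow_add₀ hq, mul_assoc, (glA N l q).KF,
      mul_smul_comm, ← mul_assoc, ih, smul_mul_assoc, smul_smul, mul_assoc,
      mul_comm (q ^ (-pr m k))]

theorem sum_pr (N k : ℕ) (hk : k < N) : ∑ j ∈ Finset.range (N + 1), pr j k = 0 := by
  unfold pr
  have h : ∀ j ∈ Finset.range (N + 1), (if j = k then (1 : ℤ) else if j = k + 1 then -1 else 0) =
      (if j = k then 1 else 0) + (if j = k + 1 then -1 else 0) := by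
    intro j _
    by_cases h1 : j = k
    · have h2 : j ≠ k + 1 := by omega
      simp [h1]
    · by_cases h2 : j = k + 1 <;> simp [h2]
  rw [Finset.sum_congr rfl h, Finset.sum_add_distrib, Finset.sum_ite_eq', Finset.sum_ite_eq']
  rw [if_pos (by rw [Finset.mem_range]; omega), if_pos (by rw [Finset.mem_range]; omega)]
  norm_num

theorem K_commute (i j : ℕ) : Commute (gK N l q i) (gK N l q j) := (glA N l q).K_comm i j

theorem pK_commute_K (m j : ℕ) : Commute (pK N l q m) (gK N l q j) := by
  induction m with
  | zero => rw [pK_zero]; exact Commute.one_left _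
  | succ m ih => rw [pK_succ]; exact ih.mul_left (K_commute m j)

theorem pK_central (hq : q ≠ 0) (a : A N l q) : Commute (pK N l q (N + 1)) a := by
  refine A_induction (P := fun a => Commute (pK N l q (N + 1)) a) ?_ ?_ ?_ ?_ ?_ ?_ a
  · intro c; exact Algebra.commutes' c _ |>.symm
  · intro i
    by_cases hi : i < N
    · have := pK_E (N := N) (l := l) hq i (N + 1)
      rw [sum_pr N i hi, zpow_zero, one_smul] at this
      exact this
    · rw [(glA N l q).E_out i (by omega)]; exact Commute.zero_right _
  · intro i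
    by_cases hi : i < N
    · have := pK_F (N := N) (l := l) hq i (N + 1)
      rw [sum_pr N i hi, neg_zero, zpow_zero, one_smul] at this
      exact this
    · rw [(glA N l q).F_out i (by omega)]; exact Commute.zero_right _
  · intro i; exact pK_commute_K _ _
  · intro a b ha hb; exact ha.add_right hb
  · intro a b ha hb; exact ha.mul_right hb

/-- `K_j K_i⁻¹`. -/
def kk (N l : ℕ) (q : ℂ) (j i : ℕ) : A N l q := gK N l q j * gK N l q i ^ (l - 1)

theorem K_inv_mul (hl : l ≠ 0) (i : ℕ) : gK N l q i ^ (l - 1) * gK N l q i = 1 := by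
  rw [← pow_succ, Nat.sub_add_cancel (Nat.one_le_iff_ne_zero.mpr hl), (glA N l q).K_pow]

theorem K_mul_inv (hl : l ≠ 0) (i : ℕ) : gK N l q i * gK N l q i ^ (l - 1) = 1 := by
  rw [← pow_succ', Nat.sub_add_cancel (Nat.one_le_iff_ne_zero.mpr hl), (glA N l q).K_pow]

theorem kk_self (hl : l ≠ 0) (i : ℕ) : kk N l q i i = 1 := K_mul_inv hl i

theorem kk_mul (hl : l ≠ 0) (j i k : ℕ) : kk N l q j i * kk N l q i k = kk N l q j k := by
  unfold kk
  calc gK N l q j * gK N l q i ^ (l - 1) * (gK N l q i * gK N l q k ^ (l - 1))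
      = gK N l q j * (gK N l q i ^ (l - 1) * gK N l q i) * gK N l q k ^ (l - 1) := by
        simp only [mul_assoc]
    _ = _ := by rw [K_inv_mul hl, mul_one]

theorem kk_inv (hl : 2 ≤ l) (i j : ℕ) : kk N l q i j ^ (l - 1) = kk N l q j i := by
  unfold kk
  have h1 : Commute (gK N l q i) (gK N l q j ^ (l - 1)) := (K_commute i j).pow_right _
  rw [h1.mul_pow, ← pow_mul]
  have h2 : (l - 1) * (l - 1) = l * (l - 2) + 1 := by
    obtain ⟨m, rfl⟩ : ∃ m, l = m + 2 := ⟨l - 2, by omega⟩
    simp only [Nat.add_sub_cancel, show m + 2 - 1 = m + 1 by omega]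
    ring
  rw [h2, pow_add, pow_mul, (glA N l q).K_pow, one_pow, one_mul, pow_one]
  exact ((K_commute j i).pow_right _).eq.symm

theorem kk_commute_K (j i k : ℕ) : Commute (kk N l q j i) (gK N l q k) :=
  (K_commute j k).mul_left ((K_commute i k).pow_left _)

/-- `prod_{i < m} K_j K_i⁻¹ * prod_{i < m} K_i = K_j ^ m`. -/
theorem prod_kk (hl : l ≠ 0) (j m : ℕ) :
    ((List.range m).map (kk N l q j)).prod * pK N l q m = gK N l q j ^ m := by
  induction m with
  | zero => simp [pK_zero]
  | succ m ih =>
    rw [List.range_succ, List.map_append, List.prod_append, pK_succ]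
    simp only [List.map_cons, List.map_nil, List.prod_cons, List.prod_nil, mul_one]
    have h1 : Commute (kk N l q j m) (pK N l q m) := by
      unfold pK
      apply Commute.list_prod_right
      intro x hx
      rw [List.mem_map] at hx
      obtain ⟨i, _, rfl⟩ := hx
      exact kk_commute_K j m i
    calc ((List.range m).map (kk N l q j)).prod * kk N l q j m * (pK N l q m * gK N l q m)
        = ((List.range m).map (kk N l q j)).prod * (kk N l q j m * pK N l q m) * gK N l q m := by
          simp only [mul_assoc]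
      _ = (((List.range m).map (kk N l q j)).prod * pK N l q m) * (kk N l q j m * gK N l q m) := by
          rw [h1.eq]; simp only [mul_assoc]
      _ = gK N l q j ^ m * (gK N l q j * (gK N l q m ^ (l - 1) * gK N l q m)) := by
          rw [ih]; unfold kk; simp only [mul_assoc]
      _ = gK N l q j ^ (m + 1) := by rw [K_inv_mul hl, mul_one, pow_succ]

theorem sOf_quot {N : ℕ} (t : Fin N → ℂˣ) (i : Fin N) :
    ((sOf t i : ℂ) * (sOf t ((i : ℕ) + 1) : ℂ)⁻¹) = t i := by
  have hne : ((∏ x ∈ Finset.range (i : ℕ), if h : x < N then t ⟨x, h⟩ else 1 : ℂˣ) : ℂ) ≠ 0 :=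
    Units.ne_zero _
  have h : (i : ℕ) < N := i.2
  simp only [sOf, Finset.prod_range_succ, h, dif_pos, Units.val_inv_eq_inv_val,
    Units.val_mul, inv_inv]
  field_simp

theorem s_tra (hIota : S_IOTA) (hPi : S_PI) : S_TRA := by
  intro N l q hl hP hco hcen t z hz
  have hl3 := hP.h3
  have hq : q ≠ 0 := hP.prim.ne_zero hl
  obtain ⟨n', -, hn'⟩ := Nat.exists_mul_mod_eq_one_of_coprime hco (by omega)
  have hn2 : (n' * (N + 1)) % l = 1 := by rw [mul_comm]; exact hn'
  obtain ⟨hrel, hkap⟩ := hPi N l q hP n' hn2
  set ι : Usl N l q →ₐ[ℂ] A N l q := liftU (hIota N l q hP) with hι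
  set π : A N l q →ₐ[ℂ] Usl N l q := liftA hrel with hπ
  have hιE : ∀ i : Fin N, ι (uE N l q i) = gE N l q i := fun i => liftU_E _ i
  have hιF : ∀ i : Fin N, ι (uF N l q i) = gF N l q i := fun i => liftU_F _ i
  have hιK : ∀ i : Fin N, ι (uK N l q i) = gK N l q i * gK N l q (i + 1) ^ (l - 1) :=
    fun i => liftU_K _ i
  have hleft : ∀ x : Usl N l q, π (ι x) = x := by
    intro x
    refine U_induction (P := fun x => π (ι x) = x) ?_ ?_ ?_ ?_ ?_ ?_ x
    · intro c; simp
    · intro i; rw [hιE, hπ, liftA_E]; simp [ext0, i.2]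
    · intro i; rw [hιF, hπ, liftA_F]; simp [ext0, i.2]
    · intro i; rw [hιK, hπ, map_mul, map_pow, liftA_K, liftA_K]; exact hkap i
    · intro a b ha hb; rw [map_add, map_add, ha, hb]
    · intro a b ha hb; rw [map_mul, map_mul, ha, hb]
  have hinj : Function.Injective ι := Function.LeftInverse.injective hleft
  -- `w = ι z` is central
  set w := ι z with hw
  have hzc : ∀ y : Usl N l q, Commute (ι y) w := by
    intro y
    have := (Subalgebra.mem_center_iff.mp hz) y
    change ι y * ι z = ι z * ι y
    rw [← map_mul, ← map_mul, this]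
  have hstep : ∀ i, i < N → Commute (kk N l q i (i + 1)) w := by
    intro i hi
    have := hzc (uK N l q ⟨i, hi⟩)
    rw [hιK] at this
    exact this
  have hstep' : ∀ i, i < N → Commute (kk N l q (i + 1) i) w := by
    intro i hi
    rw [← kk_inv (by omega) i (i + 1)]
    exact (hstep i hi).pow_left _
  have h0 : ∀ i, i ≤ N → Commute (kk N l q i 0) w := by
    intro i
    induction i with
    | zero => intro _; rw [kk_self hl]; exact Commute.one_left _
    | succ i ih =>
      intro hi
      rw [← kk_mul hl (i + 1) i 0]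
      exact (hstep' i (by omega)).mul_left (ih (by omega))
  have h0' : ∀ i, i ≤ N → Commute (kk N l q 0 i) w := by
    intro i
    induction i with
    | zero => intro _; rw [kk_self hl]; exact Commute.one_left _
    | succ i ih =>
      intro hi
      rw [← kk_mul hl 0 i (i + 1)]
      exact (ih (by omega)).mul_left (hstep i (by omega))
  have hkk : ∀ j i, j ≤ N → i ≤ N → Commute (kk N l q j i) w := by
    intro j i hj hi
    rw [← kk_mul hl j 0 i]
    exact (h0 j hj).mul_left (h0' i hi)
  have hK : ∀ j, Commute (gK N l q j) w := by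
    intro j
    by_cases hj : j ≤ N
    · have h1 : Commute (gK N l q j ^ (N + 1)) w := by
        rw [← prod_kk hl j (N + 1)]
        apply Commute.mul_left
        · apply Commute.list_prod_left
          intro x hx
          rw [List.mem_map] at hx
          obtain ⟨i, hi, rfl⟩ := hx
          rw [List.mem_range] at hi
          exact hkk j i hj (by omega)
        · exact pK_central hq w
      have h2 : gK N l q j = (gK N l q j ^ (N + 1)) ^ n' := by
        rw [← pow_mul]
        have h3 : (N + 1) * n' = l * ((N + 1) * n' / l) + 1 := by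
          have := Nat.div_add_mod ((N + 1) * n') l
          rw [hn'] at this
          exact this.symm
        rw [h3, pow_add, pow_mul, (glA N l q).K_pow, one_pow, one_mul, pow_one]
      rw [h2]
      exact h1.pow_left _
    · rw [(glA N l q).K_out j (by omega)]; exact Commute.one_left _
  have hall : ∀ a : A N l q, Commute a w := by
    intro a
    refine A_induction (P := fun a => Commute a w) ?_ ?_ ?_ hK ?_ ?_ a
    · intro c; exact Algebra.commutes' c _
    · intro i
      by_cases hi : i < N
      · have := hzc (uE N l q ⟨i, hi⟩)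
        rw [hιE] at this; exact this
      · rw [(glA N l q).E_out i (by omega)]; exact Commute.zero_left _
    · intro i
      by_cases hi : i < N
      · have := hzc (uF N l q ⟨i, hi⟩)
        rw [hιF] at this; exact this
      · rw [(glA N l q).F_out i (by omega)]; exact Commute.zero_left _
    · intro a b ha hb; exact ha.add_left hb
    · intro a b ha hb; exact ha.mul_left hb
  have hfix := hcen w (fun a => (hall a).eq.symm) (sOf t)
  -- torus automorphisms
  have htor : ∀ x : Usl N l q, tor N l q hl (sOf t) (ι x) = ι (torusAut N l q t x) := by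
    intro x
    refine U_induction (P := fun x => tor N l q hl (sOf t) (ι x) = ι (torusAut N l q t x))
      ?_ ?_ ?_ ?_ ?_ ?_ x
    · intro c; simp
    · intro i
      rw [hιE, tor_E, torusAut, liftU_E, map_smul, hιE, sOf_quot]
    · intro i
      have h1 : ((sOf t i : ℂ)⁻¹ * (sOf t ((i : ℕ) + 1) : ℂ)) = ((t i)⁻¹ : ℂˣ).val := by
        rw [Units.val_inv_eq_inv_val, ← sOf_quot t i, mul_inv, inv_inv]
      rw [hιF, tor_F, torusAut, liftU_F, map_smul, hιF, h1]
    · intro i
      rw [hιK, map_mul, map_pow, tor_K, tor_K, torusAut, liftU_K, hιK]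
    · intro a b ha hb; simp only [map_add, ha, hb]
    · intro a b ha hb; simp only [map_mul, ha, hb]
  apply hinj
  rw [← htor z]
  exact hfix

end

end Pool.Agent.Helper6.SQ
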